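import Pool.Agent.H11.NY.Targets

/-!
# MP_9b2842_al: the operators commuting with two commuting diagonalisable operators
-/

set_option autoImplicit false

open Set

namespace Pool.Agent.H89.NY.AC4

open Pool.Agent.H11.NY

section

variable {K V : Type} [Field K] [AddCommGroup V] [Module K V]

/-- joint eigenspace -/
def S (u w : Module.End K V) (x : K × K) : Submodule K V :=
  Module.End.eigenspace u x.1 ⊓ Module.End.eigenspace w x.2

theorem indep (u w : Module.End K V) (h : u * w = w * u) : iSupIndep (S u w) := by
  let f : Bool → Module.End K V := fun b => if b = true then u else w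
  have hc : ∀ i j, Commute (f i) (f j) := by
    intro i j
    cases i <;> cases j <;> simp [f, Commute, SemiconjBy, h]
  have h1 := Module.End.independent_iInf_maxGenEigenspace_of_forall_mapsTo f
    (fun i j φ => Module.End.mapsTo_maxGenEigenspace_of_comm (hc j i) φ)
  have h2 := h1.comp (f := fun (x : K × K) (b : Bool) => if b = true then x.1 else x.2) (by
    intro x y hxy
    have e1 := congrFun hxy true
    have e2 := congrFun hxy false
    simp only [if_true] at e1
    simp at e2
    exact Prod.ext e1 e2)
  refine h2.mono ?_
  intro x
  refine le_iInf ?_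
  intro b
  cases b with
  | true =>
    refine le_trans inf_le_left ?_
    simpa [f] using (u.genEigenspace x.1).mono le_top
  | false =>
    refine le_trans inf_le_right ?_
    simpa [f] using (w.genEigenspace x.2).mono le_top

variable (u w : Module.End K V) (X : Finset (K × K))

/-- block operators on a product -/
def blk {ι : Type} (W : ι → Submodule K V) :
    (∀ x, Module.End K (W x)) →ₗ[K] Module.End K (∀ x, W x) where
  toFun f := LinearMap.pi fun x => (f x) ∘ₗ LinearMap.proj x
  map_add' f g := by
    ext z x
    simp
  map_smul' c f := by
    ext z x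
    simp

theorem blk_inj {ι : Type} [DecidableEq ι] (W : ι → Submodule K V) :
    Function.Injective (blk W) := by
  intro f g hfg
  funext x
  refine LinearMap.ext fun z => ?_
  have := congrFun (LinearMap.congr_fun hfg (Pi.single x z)) x
  simpa [blk] using this

end

/-- two commuting diagonalisable operators -/
theorem pf_ac4 : T_AC4 := by
  classical
  intro K _ d u w h X hX
  let V := Fin d → K
  let W : X → Submodule K V := fun x => S u w x
  have hi : iSupIndep W := (indep u w h).comp Subtype.val_injective
  have ht : (⨆ x, W x) = ⊤ := by
    rw [← hX]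
    exact (iSup_subtype' (p := fun x => x ∈ X) (f := fun x _ => S u w x)).symm
  have hint : DirectSum.IsInternal W :=
    DirectSum.isInternal_submodule_of_iSupIndep_of_iSup_eq_top hi ht
  let e : (∀ x, W x) ≃ₗ[K] V :=
    (DirectSum.linearEquivFunOnFintype K X fun x => W x).symm.trans
      (LinearEquiv.ofBijective (DirectSum.coeLinearMap W) hint)
  have he : ∀ z : (∀ x, W x), e z = ∑ x, (z x : V) := by
    intro z
    have hz : z = ∑ x, Pi.single x (z x) := (Finset.univ_sum_single z).symm
    conv_lhs => rw [hz]
    rw [map_sum]
    refine Finset.sum_congr rfl fun x _ => ?_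
    simp only [e, LinearEquiv.trans_apply, DirectSum.linearEquivFunOnFintype_symm_single,
      LinearEquiv.ofBijective_apply]
    exact DirectSum.coeLinearMap_lof W x (z x)
  have hmem : ∀ f : (∀ x, Module.End K (W x)), e.conj (blk W f) ∈ Comm2 u w := by
    intro f
    have key : ∀ (t : Module.End K V) (c : X → K),
        (∀ x, ∀ z ∈ W x, t z = c x • z) → e.conj (blk W f) * t = t * e.conj (blk W f) := by
      intro t c htc
      refine LinearMap.ext fun v => ?_
      obtain ⟨z, rfl⟩ := e.surjective v
      have ht1 : ∀ z : (∀ x, W x), t (e z) = e (fun x => c x • z x) := by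
        intro z
        rw [he, he, map_sum]
        refine Finset.sum_congr rfl fun x _ => ?_
        rw [htc x (z x) (z x).2]
        rfl
      simp only [Module.End.mul_apply]
      rw [ht1, LinearEquiv.conj_apply_apply, LinearEquiv.conj_apply_apply, e.symm_apply_apply,
        e.symm_apply_apply, ht1]
      congr 1
      funext x
      simp [blk]
    refine ⟨key u (fun x => x.1.1) ?_, key w (fun x => x.1.2) ?_⟩
    · intro x z hz
      exact Module.End.mem_eigenspace_iff.1 hz.1
    · intro x z hz
      exact Module.End.mem_eigenspace_iff.1 hz.2
  let Φ : (∀ x, Module.End K (W x)) →ₗ[K] Comm2 u w :=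
    ((e.conj.toLinearMap) ∘ₗ (blk W)).codRestrict (Comm2 u w) hmem
  have hΦ : Function.Injective Φ := by
    intro f g hfg
    have : e.conj (blk W f) = e.conj (blk W g) := congrArg Subtype.val hfg
    exact blk_inj W (e.conj.injective this)
  have h1 := LinearMap.finrank_le_finrank_of_injective hΦ
  rw [Module.finrank_pi_fintype] at h1
  simp only [Module.finrank_linearMap] at h1
  have h2 : d = ∑ x, Module.finrank K (W x) := by
    have h3 := e.finrank_eq
    rw [Module.finrank_pi_fintype] at h3
    rw [h3]
    simp [V]
  have h4 := sq_sum_le_card_mul_sum_sq (s := (Finset.univ : Finset X))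
    (f := fun x => Module.finrank K (W x))
  rw [← h2] at h4
  have h5 : (Finset.univ : Finset X).card = X.card := by simp
  rw [h5] at h4
  calc d * d = d ^ 2 := by ring
    _ ≤ X.card * ∑ x, Module.finrank K (W x) ^ 2 := h4
    _ ≤ X.card * Module.finrank K (Comm2 u w) := by
      refine Nat.mul_le_mul_left _ (le_trans (le_of_eq ?_) h1)
      exact Finset.sum_congr rfl fun x _ => by ring

end Pool.Agent.H89.NY.AC4
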